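import Pool.Agent.Y251.LT.Stm

/-!
Project LT (MP_83fd13_an, helper251), jobs LT-LOC and LT-ALN.
-/

set_option autoImplicit false

open MeasureTheory Complex Metric Set Filter Topology
open scoped Real ComplexConjugate

namespace Pool.Agent.Y525.LT

open Pool.Agent.Y251.LT

theorem loc : S_LOC := by
  intro g ζ₀ q hq hg hg0 hb
  have hq0 : 0 < q := by linarith
  set R : ℝ := 1 / q ^ 6 with hR
  have hRpos : 0 < R := by positivity
  let p : ℂ → ℂ := fun u => g (ζ₀ + u) * Complex.exp (-((q : ℂ) ^ 8 * u)) / g ζ₀ - 1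
  have hp1 : ∀ u, 1 + p u = g (ζ₀ + u) * Complex.exp (-((q : ℂ) ^ 8 * u)) / g ζ₀ := by
    intro u; simp only [p]; ring
  have hdiff : DifferentiableOn ℂ p (ball 0 R) := by
    have h1 : DifferentiableOn ℂ (fun u => g (ζ₀ + u)) (ball 0 R) := by
      have h2 : DifferentiableOn ℂ (fun u : ℂ => ζ₀ + u) (ball 0 R) := by fun_prop
      refine hg.comp h2 ?_
      intro u hu
      rw [mem_ball_zero_iff] at hu
      rw [mem_ball, dist_eq_norm]
      simpa using hu
    have h3 : DifferentiableOn ℂ (fun u : ℂ => Complex.exp (-((q : ℂ) ^ 8 * u))) (ball 0 R) := by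
      fun_prop
    exact ((h1.mul h3).div_const _).sub_const _
  have hzero : p 0 = 0 := by
    simp only [p, add_zero, mul_zero, neg_zero, Complex.exp_zero, mul_one]
    rw [div_self hg0, sub_self]
  have hq8re : ∀ u : ℂ, (-((q : ℂ) ^ 8 * u)).re = -(q ^ 8 * u.re) := by
    intro u
    rw [neg_re]
    congr 1
    have : ((q : ℂ) ^ 8) = ((q ^ 8 : ℝ) : ℂ) := by push_cast; ring
    rw [this, re_ofReal_mul]
  have hre : ∀ u : ℂ, ‖u‖ < R → (p u).re ≤ 4 / q ^ 3 := by
    intro u hu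
    have h1 : ‖1 + p u‖ ≤ Real.exp (2 / q ^ 3) := by
      rw [hp1, norm_div, norm_mul, Complex.norm_exp, hq8re]
      rw [div_le_iff₀ (norm_pos_iff.2 hg0)]
      calc ‖g (ζ₀ + u)‖ * Real.exp (-(q ^ 8 * u.re))
          ≤ (‖g ζ₀‖ * Real.exp (q ^ 8 * u.re + 2 / q ^ 3)) * Real.exp (-(q ^ 8 * u.re)) :=
            mul_le_mul_of_nonneg_right (hb u hu) (Real.exp_pos _).le
        _ = ‖g ζ₀‖ * (Real.exp (q ^ 8 * u.re + 2 / q ^ 3) * Real.exp (-(q ^ 8 * u.re))) := by ring
        _ = Real.exp (2 / q ^ 3) * ‖g ζ₀‖ := by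
            rw [← Real.exp_add]
            rw [show q ^ 8 * u.re + 2 / q ^ 3 + -(q ^ 8 * u.re) = 2 / q ^ 3 by ring]
            ring
    have h2 : (1 + p u).re ≤ ‖1 + p u‖ := Complex.re_le_norm _
    have h3 : (1 + p u).re = 1 + (p u).re := by simp
    have hq3 : (10 : ℝ) ^ 3 ≤ q ^ 3 := by gcongr
    have h4 : |2 / q ^ 3| ≤ 1 := by
      rw [abs_of_nonneg (by positivity), div_le_one (by positivity)]
      linarith
    have h5 := Real.abs_exp_sub_one_le h4
    rw [abs_of_nonneg (by positivity : (0 : ℝ) ≤ 2 / q ^ 3)] at h5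
    have h6 := (abs_le.1 h5).2
    have h7 : 2 * (2 / q ^ 3) = 4 / q ^ 3 := by ring
    linarith
  have hBC : ∀ u : ℂ, ‖u‖ < R → ‖p u‖ ≤ 2 * (4 / q ^ 3) * ‖u‖ / (R - ‖u‖) := by
    intro u hu
    exact Complex.borelCaratheodory_zero (by positivity) hdiff
      (fun z hz => hre z (mem_ball_zero_iff.1 hz)) hRpos (mem_ball_zero_iff.2 hu) hzero
  have hb0 : ∀ u : ℂ, ‖u‖ ≤ 1 / (2 * q ^ 6) → ‖p u‖ ≤ 16 * q ^ 3 * ‖u‖ := by
    intro u hu
    have hu2 : ‖u‖ ≤ R / 2 := by
      have : R / 2 = 1 / (2 * q ^ 6) := by rw [hR]; field_simp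
      rw [this]; exact hu
    have h1 := hBC u (by linarith)
    refine h1.trans ?_
    have h2 : R / 2 ≤ R - ‖u‖ := by linarith
    calc 2 * (4 / q ^ 3) * ‖u‖ / (R - ‖u‖) ≤ 2 * (4 / q ^ 3) * ‖u‖ / (R / 2) := by
          apply div_le_div_of_nonneg_left _ (by positivity) h2
          positivity
      _ = 16 * q ^ 3 * ‖u‖ := by rw [hR]; field_simp; ring
  have hb0' : ∀ u : ℂ, ‖u‖ ≤ R / 2 → ‖p u‖ ≤ 8 / q ^ 3 := by
    intro u hu
    have h3 : R / 2 = 1 / (2 * q ^ 6) := by rw [hR]; field_simp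
    have h1 := hb0 u (by rw [← h3]; exact hu)
    refine h1.trans ?_
    calc 16 * q ^ 3 * ‖u‖ ≤ 16 * q ^ 3 * (R / 2) := by gcongr
      _ = 8 / q ^ 3 := by rw [hR]; field_simp; ring
  have hb1 : ∀ u : ℂ, ‖u‖ ≤ 1 / (4 * q ^ 6) → ‖deriv p u‖ ≤ 32 * q ^ 3 := by
    intro u hu
    have hu2 : ‖u‖ ≤ R / 4 := by
      have : R / 4 = 1 / (4 * q ^ 6) := by rw [hR]; field_simp
      rw [this]; exact hu
    have h1 : DiffContOnCl ℂ p (ball u (R / 4)) := by
      apply hdiff.diffContOnCl_ball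
      intro z hz
      rw [mem_closedBall, dist_eq_norm] at hz
      rw [mem_ball_zero_iff]
      have : ‖z‖ ≤ ‖z - u‖ + ‖u‖ := by simpa using norm_add_le (z - u) u
      linarith
    have h2 := Complex.norm_deriv_le_of_forall_mem_sphere_norm_le (C := 8 / q ^ 3)
      (by positivity : 0 < R / 4) h1 (by
        intro z hz
        rw [mem_sphere, dist_eq_norm] at hz
        apply hb0'
        have : ‖z‖ ≤ ‖z - u‖ + ‖u‖ := by simpa using norm_add_le (z - u) u
        linarith)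
    refine h2.trans (le_of_eq ?_)
    rw [hR]; field_simp; ring
  refine ⟨p, ⟨hdiff, hzero, hb0, hb1, ?_⟩, ?_⟩
  · intro u hu
    have hu2 : ‖u‖ ≤ R / 8 := by
      have : R / 8 = 1 / (8 * q ^ 6) := by rw [hR]; field_simp
      rw [this]; exact hu
    have h0 : DifferentiableOn ℂ (deriv p) (ball 0 R) := hdiff.deriv isOpen_ball
    have h1 : DiffContOnCl ℂ (deriv p) (ball u (R / 8)) := by
      apply h0.diffContOnCl_ball
      intro z hz
      rw [mem_closedBall, dist_eq_norm] at hz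
      rw [mem_ball_zero_iff]
      have : ‖z‖ ≤ ‖z - u‖ + ‖u‖ := by simpa using norm_add_le (z - u) u
      linarith
    have h2 := Complex.norm_deriv_le_of_forall_mem_sphere_norm_le (C := 32 * q ^ 3)
      (by positivity : 0 < R / 8) h1 (by
        intro z hz
        rw [mem_sphere, dist_eq_norm] at hz
        apply hb1
        have : ‖z‖ ≤ ‖z - u‖ + ‖u‖ := by simpa using norm_add_le (z - u) u
        have h4 : R / 4 = 1 / (4 * q ^ 6) := by rw [hR]; field_simp
        rw [← h4]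
        linarith)
    refine h2.trans (le_of_eq ?_)
    rw [hR]; field_simp; ring
  · intro u _
    rw [hp1]
    have h1 : Complex.exp ((q : ℂ) ^ 8 * u) * Complex.exp (-((q : ℂ) ^ 8 * u)) = 1 := by
      rw [← Complex.exp_add, add_neg_cancel, Complex.exp_zero]
    calc g (ζ₀ + u) = g (ζ₀ + u) * (Complex.exp ((q : ℂ) ^ 8 * u) *
          Complex.exp (-((q : ℂ) ^ 8 * u))) := by rw [h1, mul_one]
      _ = g ζ₀ * (Complex.exp ((q : ℂ) ^ 8 * u) *
          (g (ζ₀ + u) * Complex.exp (-((q : ℂ) ^ 8 * u)) / g ζ₀)) := by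
          field_simp

theorem aln : S_ALN := by
  intro r h₀ A a hA h0 hc hr
  set α := Complex.arg h₀ with hα
  set k : ℤ := round ((A * a + α) / (2 * π)) with hk
  have hpi := Real.pi_pos
  have hkk : |A * a + α - 2 * π * k| ≤ π := by
    have h1 := abs_sub_round ((A * a + α) / (2 * π))
    rw [← hk] at h1
    have h2 : A * a + α - 2 * π * k = 2 * π * ((A * a + α) / (2 * π) - k) := by
      field_simp
    rw [h2, abs_mul, abs_of_pos (by positivity : (0 : ℝ) < 2 * π)]
    calc 2 * π * |(A * a + α) / (2 * π) - k| ≤ 2 * π * (1 / 2) := by gcongr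
      _ = π := by ring
  let y : ℝ → ℝ := fun x => (x - α + 2 * π * k) / A
  have hy : ∀ x ∈ Icc (-(π / 4)) (π / 4), |y x - a| ≤ 4 / A := by
    intro x hx
    have h1 : y x - a = (x - (A * a + α - 2 * π * k)) / A := by
      simp only [y]; field_simp; ring
    rw [h1, abs_div, abs_of_pos hA]
    gcongr
    have h2 : |x| ≤ π / 4 := abs_le.2 hx
    calc |x - (A * a + α - 2 * π * k)| ≤ |x| + |A * a + α - 2 * π * k| := abs_sub _ _
      _ ≤ π / 4 + π := by linarith
      _ ≤ 4 := by linarith [Real.pi_lt_d2]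
  have hyI : ∀ x ∈ Icc (-(π / 4)) (π / 4), y x ∈ Icc (a - 4 / A) (a + 4 / A) := by
    intro x hx
    have := abs_le.1 (hy x hx)
    constructor <;> linarith [this.1, this.2]
  have hF : ∀ x : ℝ, h₀ * (Complex.exp (((A * y x : ℝ) : ℂ) * I) * (1 + r (y x))) =
      (‖h₀‖ : ℂ) * (Complex.exp ((x : ℂ) * I) * (1 + r (y x))) := by
    intro x
    have h1 : A * y x = x - α + 2 * π * k := by
      simp only [y]; field_simp
    have h2 : h₀ = (‖h₀‖ : ℂ) * Complex.exp ((α : ℂ) * I) := by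
      rw [hα]; exact (Complex.norm_mul_exp_arg_mul_I h₀).symm
    have h3 : Complex.exp ((α : ℂ) * I) * Complex.exp (((A * y x : ℝ) : ℂ) * I) =
        Complex.exp ((x : ℂ) * I) := by
      rw [← Complex.exp_add, h1]
      have h4 : (α : ℂ) * I + ((x - α + 2 * π * k : ℝ) : ℂ) * I =
          (x : ℂ) * I + (k : ℂ) * (2 * (π : ℂ) * I) := by
        push_cast; ring
      rw [h4, Complex.exp_add, Complex.exp_int_mul_two_pi_mul_I, mul_one]
    calc h₀ * (Complex.exp (((A * y x : ℝ) : ℂ) * I) * (1 + r (y x)))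
        = ((‖h₀‖ : ℂ) * Complex.exp ((α : ℂ) * I)) *
          (Complex.exp (((A * y x : ℝ) : ℂ) * I) * (1 + r (y x))) := by rw [← h2]
      _ = (‖h₀‖ : ℂ) * ((Complex.exp ((α : ℂ) * I) * Complex.exp (((A * y x : ℝ) : ℂ) * I)) *
          (1 + r (y x))) := by ring
      _ = _ := by rw [h3]
  have hE : ∀ x : ℝ, Complex.exp ((x : ℂ) * I) = (Real.cos x : ℂ) + (Real.sin x : ℂ) * I := by
    intro x
    rw [Complex.exp_mul_I]
    push_cast
    ring
  have him : ∀ x : ℝ, (Complex.exp ((x : ℂ) * I) * (1 + r (y x))).im =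
      Real.sin x * (1 + (r (y x)).re) + Real.cos x * (r (y x)).im := by
    intro x
    rw [hE]
    simp only [mul_im, add_re, add_im, ofReal_re, ofReal_im, mul_re, I_re, I_im, one_re, one_im]
    ring
  have hre : ∀ x : ℝ, (Complex.exp ((x : ℂ) * I) * (1 + r (y x))).re =
      Real.cos x * (1 + (r (y x)).re) - Real.sin x * (r (y x)).im := by
    intro x
    rw [hE]
    simp only [mul_im, add_re, add_im, ofReal_re, ofReal_im, mul_re, I_re, I_im, one_re, one_im]
    ring
  have hrr : ∀ x ∈ Icc (-(π / 4)) (π / 4), |(r (y x)).re| ≤ 1 / 10 ∧ |(r (y x)).im| ≤ 1 / 10 := by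
    intro x hx
    have h1 := hr _ (hyI x hx)
    exact ⟨(Complex.abs_re_le_norm _).trans h1, (Complex.abs_im_le_norm _).trans h1⟩
  have hcont : ContinuousOn (fun x : ℝ => Real.sin x * (1 + (r (y x)).re) +
      Real.cos x * (r (y x)).im) (Icc (-(π / 4)) (π / 4)) := by
    have h1 : ContinuousOn (fun x => r (y x)) (Icc (-(π / 4)) (π / 4)) := by
      refine hc.comp ?_ hyI
      apply Continuous.continuousOn
      simp only [y]
      fun_prop
    have h2 : ContinuousOn (fun x => (r (y x)).re) (Icc (-(π / 4)) (π / 4)) :=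
      Complex.continuous_re.comp_continuousOn h1
    have h3 : ContinuousOn (fun x => (r (y x)).im) (Icc (-(π / 4)) (π / 4)) :=
      Complex.continuous_im.comp_continuousOn h1
    exact (Real.continuous_sin.continuousOn.mul (continuousOn_const.add h2)).add
      (Real.continuous_cos.continuousOn.mul h3)
  have hle : -(π / 4) ≤ π / 4 := by linarith
  have hs2 : 0 < Real.sqrt 2 / 2 := by positivity
  have hA1 : Real.sin (-(π / 4)) * (1 + (r (y (-(π / 4)))).re) +
      Real.cos (-(π / 4)) * (r (y (-(π / 4)))).im ≤ 0 := by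
    obtain ⟨h1, h2⟩ := hrr _ (left_mem_Icc.2 hle)
    rw [Real.sin_neg, Real.cos_neg, Real.sin_pi_div_four, Real.cos_pi_div_four]
    have h3 := abs_le.1 h1
    have h4 := abs_le.1 h2
    nlinarith [h3.1, h4.2]
  have hA2 : 0 ≤ Real.sin (π / 4) * (1 + (r (y (π / 4))).re) +
      Real.cos (π / 4) * (r (y (π / 4))).im := by
    obtain ⟨h1, h2⟩ := hrr _ (right_mem_Icc.2 hle)
    rw [Real.sin_pi_div_four, Real.cos_pi_div_four]
    have h3 := abs_le.1 h1
    have h4 := abs_le.1 h2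
    nlinarith [h3.1, h4.1]
  obtain ⟨x, hx, hx0⟩ := intermediate_value_Icc hle hcont (show (0 : ℝ) ∈ Icc _ _ from ⟨hA1, hA2⟩)
  refine ⟨y x, hy x hx, ?_, ?_⟩
  · rw [hF, im_ofReal_mul, him]
    rw [show Real.sin x * (1 + (r (y x)).re) + Real.cos x * (r (y x)).im = 0 from hx0, mul_zero]
  · rw [hF, re_ofReal_mul, hre]
    apply mul_pos (norm_pos_iff.2 h0)
    obtain ⟨h1, h2⟩ := hrr _ hx
    have hcos : Real.sqrt 2 / 2 ≤ Real.cos x := by
      rw [← Real.cos_pi_div_four, ← Real.cos_abs x]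
      apply Real.cos_le_cos_of_nonneg_of_le_pi (abs_nonneg _) (by linarith)
      exact abs_le.2 hx
    have hcos2 : (1 / 2 : ℝ) ≤ Real.cos x ^ 2 := by
      have h5 : (Real.sqrt 2 / 2) ^ 2 = 1 / 2 := by
        rw [div_pow, Real.sq_sqrt (by norm_num)]; norm_num
      rw [← h5]
      gcongr
    have hsin2 : Real.sin x ^ 2 ≤ Real.cos x ^ 2 := by
      have := Real.sin_sq_add_cos_sq x
      linarith
    have hcpos : 0 < Real.cos x := lt_of_lt_of_le hs2 hcos
    have hsin : |Real.sin x| ≤ Real.cos x := by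
      rw [← abs_of_pos hcpos]
      exact sq_le_sq.1 hsin2
    have h3 : Real.sin x * (r (y x)).im ≤ Real.cos x * (1 / 10) := by
      calc Real.sin x * (r (y x)).im ≤ |Real.sin x * (r (y x)).im| := le_abs_self _
        _ = |Real.sin x| * |(r (y x)).im| := abs_mul _ _
        _ ≤ Real.cos x * (1 / 10) := by gcongr
    have h4 : Real.cos x * (9 / 10) ≤ Real.cos x * (1 + (r (y x)).re) := by
      have := (abs_le.1 h1).1
      apply mul_le_mul_of_nonneg_left _ hcpos.le
      linarith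
    nlinarith
end Pool.Agent.Y525.LT
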